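import Pool.Agent.H21.BS.TB

/-!
# Row TUP of bes_modules: the mass of the quadruples with equal entries
-/

set_option autoImplicit false

open Finset Pool.Agent.H6.N4D Pool.Agent.H21.BS

namespace Pool.Agent.H76.BS

open Classical in
theorem pair_le (Q : Finset ℕ) (P : ℕ) (hQ : ∀ q ∈ Q, P ≤ q) (hP : 1 ≤ P) (i j : Fin 4)
    (hij : i ≠ j) :
    ∑ q ∈ (Fintype.piFinset fun _ : Fin 4 => Q).filter (fun q => q i = q j),
      ∏ k, 1 / (q k : ℝ) ≤ 1 / P * (∑ q ∈ Q, 1 / (q : ℝ)) ^ 3 := by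
  have hP' : (0 : ℝ) < P := by exact_mod_cast hP
  let g : ({k : Fin 4 // k ≠ j} → ℕ) → ℝ := fun r => 1 / P * ∏ k, 1 / (r k : ℝ)
  let φ : (Fin 4 → ℕ) → ({k : Fin 4 // k ≠ j} → ℕ) := fun q k => q k.1
  have h1 : ∀ q ∈ (Fintype.piFinset fun _ : Fin 4 => Q).filter (fun q => q i = q j),
      ∏ k, 1 / (q k : ℝ) ≤ g (φ q) := by
    intro q hq
    rw [mem_filter, Fintype.mem_piFinset] at hq
    rw [Fintype.prod_eq_mul_prod_subtype_ne (fun k => 1 / (q k : ℝ)) j]
    refine mul_le_mul_of_nonneg_right ?_ (prod_nonneg fun k _ => by positivity)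
    exact one_div_le_one_div_of_le hP' (by exact_mod_cast hQ _ (hq.1 j))
  have h2 : Set.InjOn φ
      ((Fintype.piFinset fun _ : Fin 4 => Q).filter (fun q => q i = q j) : Finset _) := by
    intro q hq r hr h
    have hq' := (mem_filter.1 (mem_coe.1 hq)).2
    have hr' := (mem_filter.1 (mem_coe.1 hr)).2
    have h3 : ∀ k, k ≠ j → q k = r k := fun k hk => congrFun h ⟨k, hk⟩
    funext k
    by_cases hk : k = j
    · rw [hk, ← hq', ← hr']
      exact h3 i hij
    · exact h3 k hk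
  have h4 : ∑ q ∈ (Fintype.piFinset fun _ : Fin 4 => Q).filter (fun q => q i = q j),
      g (φ q) = ∑ r ∈ ((Fintype.piFinset fun _ : Fin 4 => Q).filter
        (fun q => q i = q j)).image φ, g r := (sum_image h2).symm
  have h5 : ((Fintype.piFinset fun _ : Fin 4 => Q).filter (fun q => q i = q j)).image φ ⊆
      Fintype.piFinset fun _ : {k : Fin 4 // k ≠ j} => Q := by
    intro r hr
    obtain ⟨q, hq, rfl⟩ := mem_image.1 hr
    rw [mem_filter, Fintype.mem_piFinset] at hq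
    rw [Fintype.mem_piFinset]
    intro k
    exact hq.1 k.1
  have h6 : ∑ r ∈ Fintype.piFinset fun _ : {k : Fin 4 // k ≠ j} => Q, g r =
      1 / P * (∑ q ∈ Q, 1 / (q : ℝ)) ^ 3 := by
    have h7 : (∏ _k : {k : Fin 4 // k ≠ j}, ∑ q ∈ Q, 1 / (q : ℝ)) =
        ∑ r ∈ Fintype.piFinset (fun _ : {k : Fin 4 // k ≠ j} => Q),
          ∏ k, 1 / (r k : ℝ) :=
      prod_univ_sum (fun _ : {k : Fin 4 // k ≠ j} => Q) (fun _ q => 1 / (q : ℝ))
    have h8 : Fintype.card {k : Fin 4 // k ≠ j} = 3 := by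
      rw [Fintype.card_subtype_compl, Fintype.card_fin, Fintype.card_unique]
    rw [prod_const, card_univ, h8] at h7
    rw [h7, mul_sum]
  refine (sum_le_sum h1).trans ?_
  rw [h4, ← h6]
  refine sum_le_sum_of_subset_of_nonneg h5 fun r _ _ => ?_
  have : (0 : ℝ) ≤ ∏ k, 1 / (r k : ℝ) := prod_nonneg fun k _ => by positivity
  exact mul_nonneg (by positivity) this

theorem pf_TUP : T_TUP := by
  classical
  intro Q W P hQ hP hW
  let T : Finset (Fin 4 × Fin 4) := univ.filter fun p => p.1 < p.2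
  have hT : T.card = 6 := by decide
  have hP' : (0 : ℝ) < P := by exact_mod_cast hP
  have hS : (0 : ℝ) ≤ ∑ q ∈ Q, 1 / (q : ℝ) := sum_nonneg fun q _ => by positivity
  have h0 : ∀ q : Fin 4 → ℕ, (0 : ℝ) ≤ ∏ k, 1 / (q k : ℝ) :=
    fun q => prod_nonneg fun k _ => by positivity
  have h1 : ∀ q : Fin 4 → ℕ, ¬ Function.Injective q →
      ∏ k, 1 / (q k : ℝ) ≤ ∑ p ∈ T, if q p.1 = q p.2 then ∏ k, 1 / (q k : ℝ) else 0 := by
    intro q hq
    have h2 : ∃ p ∈ T, q p.1 = q p.2 := by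
      rw [Function.Injective] at hq
      push Not at hq
      obtain ⟨a, b, hab, hne⟩ := hq
      rcases lt_or_gt_of_ne hne with h | h
      · exact ⟨(a, b), by simpa [T] using h, hab⟩
      · exact ⟨(b, a), by simpa [T] using h, hab.symm⟩
    obtain ⟨p, hp, hqp⟩ := h2
    have h3 : (if q p.1 = q p.2 then ∏ k, 1 / (q k : ℝ) else 0) ≤
        ∑ p ∈ T, if q p.1 = q p.2 then ∏ k, 1 / (q k : ℝ) else 0 := by
      refine single_le_sum
        (f := fun p : Fin 4 × Fin 4 => if q p.1 = q p.2 then ∏ k, 1 / (q k : ℝ) else 0)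
        (fun p' _ => ?_) hp
      split_ifs
      · exact h0 q
      · exact le_rfl
    rwa [if_pos hqp] at h3
  calc ∑ q ∈ (Fintype.piFinset fun _ : Fin 4 => Q).filter (fun q => ¬ Function.Injective q),
        ∏ j, 1 / (q j : ℝ)
      ≤ ∑ q ∈ (Fintype.piFinset fun _ : Fin 4 => Q).filter (fun q => ¬ Function.Injective q),
        ∑ p ∈ T, if q p.1 = q p.2 then ∏ k, 1 / (q k : ℝ) else 0 :=
        sum_le_sum fun q hq => h1 q (mem_filter.1 hq).2
    _ ≤ ∑ q ∈ (Fintype.piFinset fun _ : Fin 4 => Q),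
        ∑ p ∈ T, if q p.1 = q p.2 then ∏ k, 1 / (q k : ℝ) else 0 := by
        refine sum_le_sum_of_subset_of_nonneg (filter_subset _ _) fun q _ _ => ?_
        refine sum_nonneg fun p _ => ?_
        split_ifs
        · exact h0 q
        · exact le_rfl
    _ = ∑ p ∈ T, ∑ q ∈ (Fintype.piFinset fun _ : Fin 4 => Q).filter
        (fun q => q p.1 = q p.2), ∏ k, 1 / (q k : ℝ) := by
        rw [sum_comm]
        refine sum_congr rfl fun p _ => ?_
        rw [sum_filter]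
    _ ≤ ∑ _p ∈ T, 1 / P * (∑ q ∈ Q, 1 / (q : ℝ)) ^ 3 := by
        refine sum_le_sum fun p hp => ?_
        exact pair_le Q P hQ hP p.1 p.2 (ne_of_lt (mem_filter.1 hp).2)
    _ = 6 * (∑ q ∈ Q, 1 / (q : ℝ)) ^ 3 / P := by
        rw [sum_const, hT, nsmul_eq_mul]
        push_cast
        ring
    _ ≤ 6 * W ^ 3 / P := by
        gcongr

end Pool.Agent.H76.BS
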